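import Pool.Agent.LRG.StmtsH

/-!
# LRG row NEW (Newton lemma for power series over the `p`-adic integers)
-/

set_option autoImplicit false

open Polynomial

namespace Pool.Agent.LRG.H43

open Pool.Agent.LRG

/-- second order Taylor expansion with a polynomial remainder -/
theorem taylor_two {A : Type} [CommRing A] (f : A[X]) (z c : A) :
    ∃ k : A[X], ∀ u : A, f.eval (z + c * u)
      = f.eval z + (derivative f).eval z * (c * u) + k.eval u * (c * u) ^ 2 := by
  obtain ⟨k, hk⟩ := Polynomial.binomExpansion (f.map (C : A →+* A[X])) (C z) (C c * X)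
  refine ⟨k, fun u => ?_⟩
  have h := congrArg (Polynomial.eval u) hk
  rw [Polynomial.eval_map, Polynomial.derivative_map, Polynomial.eval_map, Polynomial.eval_map] at h
  simp only [Polynomial.eval_add, Polynomial.eval_mul, Polynomial.eval_pow, Polynomial.eval_C,
    Polynomial.eval_X] at h
  have h1 : Polynomial.eval u (f.eval₂ C (C z + C c * X)) = f.eval (z + c * u) := by
    have : f.eval₂ C (C z + C c * X) = f.comp (C z + C c * X) := rfl
    rw [this, Polynomial.eval_comp]; simp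
  have h2 : ∀ g : A[X], Polynomial.eval u (g.eval₂ C (C z)) = g.eval z := by
    intro g
    have : g.eval₂ C (C z) = g.comp (C z) := rfl
    rw [this, Polynomial.eval_comp]; simp
  rw [h1, h2, h2] at h
  exact h

theorem new (hHCT : H.HctStmt) : H.NewStmt := by
  intro p _ HH z₀ h1 h2
  set f₀ : ℤ_[p][X] := HH.map (evalRingHom (0 : ℤ_[p])) with hf₀
  set d : ℤ_[p] := (derivative f₀).eval z₀ with hd
  refine ⟨2 * d.valuation + 1, fun e he => ?_⟩
  obtain ⟨e', he'⟩ := Nat.exists_eq_add_of_le he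
  set w := d.valuation with hw
  set φ : ℤ_[p][X] →+* PowerSeries ℤ_[p] := eval₂RingHom (PowerSeries.C (R := ℤ_[p]))
      (PowerSeries.C ((p : ℤ_[p]) ^ e) * PowerSeries.X) with hφ
  set f : (PowerSeries ℤ_[p])[X] := HH.map φ with hf
  set F₀ : (PowerSeries ℤ_[p])[X] := f₀.map (PowerSeries.C (R := ℤ_[p])) with hF₀
  set P : PowerSeries ℤ_[p] := PowerSeries.C ((p : ℤ_[p]) ^ e) * PowerSeries.X with hP
  have hdvd : C P ∣ f - F₀ := by
    rw [Polynomial.C_dvd_iff_dvd_coeff]
    intro i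
    have hc : (f - F₀).coeff i = φ (HH.coeff i - C ((HH.coeff i).eval 0)) := by
      rw [Polynomial.coeff_sub, hf, hF₀, hf₀, Polynomial.coeff_map, Polynomial.coeff_map,
        Polynomial.coeff_map, map_sub]
      congr 1
      simp [hφ]
    rw [hc]
    have hX : (X : ℤ_[p][X]) ∣ HH.coeff i - C ((HH.coeff i).eval 0) := by
      rw [Polynomial.X_dvd_iff]
      simp [Polynomial.coeff_zero_eq_eval_zero]
    obtain ⟨q, hq⟩ := hX
    refine ⟨φ q, ?_⟩
    rw [hq, map_mul]
    congr 1
    simp [hφ, hP]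
  obtain ⟨f₁, hf₁⟩ := hdvd
  have hff : f = F₀ + C P * f₁ := by rw [← hf₁]; ring
  obtain ⟨k, hk⟩ := taylor_two f (PowerSeries.C z₀) (PowerSeries.C ((p : ℤ_[p]) ^ (w + 1)) * PowerSeries.X)
  -- values at `z₀`
  have hv0 : f.eval (PowerSeries.C z₀) = P * f₁.eval (PowerSeries.C z₀) := by
    rw [hff, Polynomial.eval_add, Polynomial.eval_mul, Polynomial.eval_C, hF₀,
      Polynomial.eval_map, Polynomial.eval₂_at_apply, h1, map_zero, zero_add]
  have hv1 : (derivative f).eval (PowerSeries.C z₀)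
      = PowerSeries.C d + P * (derivative f₁).eval (PowerSeries.C z₀) := by
    rw [hff, Polynomial.derivative_add, Polynomial.derivative_C_mul, Polynomial.eval_add,
      Polynomial.eval_mul, Polynomial.eval_C, hF₀, Polynomial.derivative_map,
      Polynomial.eval_map, Polynomial.eval₂_at_apply]
  have hdu : d = (PadicInt.unitCoeff h2 : ℤ_[p]) * (p : ℤ_[p]) ^ w := PadicInt.unitCoeff_spec h2
  set ε : ℤ_[p] := (PadicInt.unitCoeff h2 : ℤ_[p]) with hε
  have hεu : IsUnit ε := (PadicInt.unitCoeff h2).isUnit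
  set a := f₁.eval (PowerSeries.C z₀) with ha
  set b := (derivative f₁).eval (PowerSeries.C z₀) with hb
  obtain ⟨u, hu⟩ := hHCT ℤ_[p] (PowerSeries.C ((p : ℤ_[p]) ^ e') * a)
    (PowerSeries.C ε + PowerSeries.C ((p : ℤ_[p]) ^ (w + 1 + e')) * PowerSeries.X * b)
    (C (PowerSeries.C (p : ℤ_[p])) * k * X ^ 2) (by
      rw [PowerSeries.isUnit_iff_constantCoeff]
      simpa using hεu)
  refine ⟨PowerSeries.C z₀ + PowerSeries.C ((p : ℤ_[p]) ^ (w + 1)) * PowerSeries.X * u, by simp, ?_⟩
  rw [← Polynomial.eval_map]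
  change f.eval _ = 0
  rw [hk u, hv0, hv1]
  rw [Polynomial.eval_mul, Polynomial.eval_mul, Polynomial.eval_C, Polynomial.eval_pow,
    Polynomial.eval_X] at hu
  have key : P * a + (PowerSeries.C d + P * b) * (PowerSeries.C ((p : ℤ_[p]) ^ (w + 1)) * PowerSeries.X * u)
      + k.eval u * (PowerSeries.C ((p : ℤ_[p]) ^ (w + 1)) * PowerSeries.X * u) ^ 2
      = PowerSeries.C ((p : ℤ_[p]) ^ (2 * w + 1)) * PowerSeries.X *
        (PowerSeries.C ((p : ℤ_[p]) ^ e') * a +
          (PowerSeries.C ε + PowerSeries.C ((p : ℤ_[p]) ^ (w + 1 + e')) * PowerSeries.X * b) * u +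
          PowerSeries.X * (PowerSeries.C (p : ℤ_[p]) * k.eval u * u ^ 2)) := by
    rw [hP, hdu, he']
    simp only [map_mul, map_pow]
    ring
  rw [key, hu, mul_zero]

end Pool.Agent.LRG.H43
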