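import Pool.Agent.LRG.StmtsE

/-!
# LRG row LGB (size of the units of block E)
-/

set_option autoImplicit false

open Polynomial NumberField

namespace Pool.Agent.LRG.H43

open Pool.Agent.LRG Pool.Agent.LRG.E

theorem lgb : E.LgbStmt := by
  classical
  intro r₁ r₂ t x hx ht hr
  have ht' : (4 : ℝ) ≤ t := by exact_mod_cast ht
  have hbd : (2 : ℝ) ≤ bd r₁ r₂ := by
    unfold bd
    have : (1 : ℝ) ≤ 5 ^ (r₁ + r₂) := one_le_pow₀ (by norm_num)
    linarith
  set B : ℝ := 3 * bd r₁ r₂ * t with hB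
  have hB1 : 1 ≤ B := by
    rw [hB]; nlinarith
  have hcard : Fintype.card (Ro r₁ r₂) = r₁ + 2 * r₂ := by
    simp [Ro, Fintype.card_sum, Fintype.card_prod]; ring
  have hne : ∀ o o' : Ro r₁ r₂, ‖x o - t * om o'‖ ≠ 0 := by
    intro o o'
    have h := hx.one o
    have h0 : ∏ o' : Ro r₁ r₂, ‖x o - t * om o'‖ ≠ 0 := by rw [h]; exact one_ne_zero
    exact (Finset.prod_ne_zero_iff.mp h0) o' (Finset.mem_univ _)
  have hpos : ∀ o o' : Ro r₁ r₂, 0 < ‖x o - t * om o'‖ := fun o o' =>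
    lt_of_le_of_ne (norm_nonneg _) (Ne.symm (hne o o'))
  have hle : ∀ (o : Ro r₁ r₂) (s : Finset (Ro r₁ r₂)),
      ∏ o' ∈ s, ‖x o - t * om o'‖ ≤ B ^ (r₁ + 2 * r₂) := by
    intro o s
    calc ∏ o' ∈ s, ‖x o - t * om o'‖ ≤ ∏ _o' ∈ s, B :=
          Finset.prod_le_prod (fun i _ => norm_nonneg _) (fun i _ => hx.high o i)
      _ = B ^ s.card := by rw [Finset.prod_const]
      _ ≤ B ^ (r₁ + 2 * r₂) := by
          refine pow_le_pow_right₀ hB1 ?_
          rw [← hcard]; exact Finset.card_le_univ s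
  have hdpos : ∀ (o : Ro r₁ r₂) (k : Fa r₁ r₂), 0 < dst t (x o) k := by
    intro o k
    unfold dst
    exact Finset.prod_pos fun i _ => hpos o i
  refine ⟨hdpos, ?_, ?_⟩
  · intro o k hk
    refine Real.log_pos ?_
    unfold dst
    have hmem : rep k ∈ Finset.univ.filter (fun o : Ro r₁ r₂ => fac o = k) := by
      rw [Finset.mem_filter]
      refine ⟨Finset.mem_univ _, ?_⟩
      rcases k with k | k <;> rfl
    have h1 : ∀ o' ∈ Finset.univ.filter (fun o : Ro r₁ r₂ => fac o = k),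
        1 < ‖x o - t * om o'‖ := by
      intro o' ho'
      rw [Finset.mem_filter] at ho'
      have hoo : o ≠ o' := by
        intro h; apply hk; rw [h]; exact ho'.2
      have := hx.low o o' hoo
      linarith
    have hP : ∏ _o' ∈ Finset.univ.filter (fun o : Ro r₁ r₂ => fac o = k), (1 : ℝ)
        < ∏ o' ∈ Finset.univ.filter (fun o : Ro r₁ r₂ => fac o = k), ‖x o - t * om o'‖ :=
      Finset.prod_lt_prod (fun i _ => one_pos) (fun i hi => (h1 i hi).le)
        ⟨rep k, hmem, h1 _ hmem⟩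
    simpa using hP
  · intro o k
    have hup : dst t (x o) k ≤ B ^ (r₁ + 2 * r₂) := by
      unfold dst; exact hle o _
    have hlow : 1 ≤ dst t (x o) k * B ^ (r₁ + 2 * r₂) := by
      have h := hx.one o
      rw [← Finset.prod_filter_mul_prod_filter_not Finset.univ (fun o : Ro r₁ r₂ => fac o = k)] at h
      have h2 := hle o (Finset.univ.filter (fun o : Ro r₁ r₂ => ¬ fac o = k))
      have h3 := hdpos o k
      calc (1 : ℝ) = dst t (x o) k * ∏ o' ∈ Finset.univ.filter (fun o : Ro r₁ r₂ => ¬ fac o = k),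
            ‖x o - t * om o'‖ := by rw [← h]; rfl
        _ ≤ dst t (x o) k * B ^ (r₁ + 2 * r₂) := mul_le_mul_of_nonneg_left h2 h3.le
    have hBn : 0 < B ^ (r₁ + 2 * r₂) := by positivity
    have hl1 : Real.log (dst t (x o) k) ≤ ((r₁ + 2 * r₂ : ℕ) : ℝ) * Real.log B := by
      rw [← Real.log_pow]
      exact Real.log_le_log (hdpos o k) hup
    have hl2 : 0 ≤ Real.log (dst t (x o) k) + ((r₁ + 2 * r₂ : ℕ) : ℝ) * Real.log B := by
      rw [← Real.log_pow, ← Real.log_mul (hdpos o k).ne' hBn.ne']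
      exact Real.log_nonneg hlow
    rw [abs_le]
    constructor
    · linarith
    · exact hl1

end Pool.Agent.LRG.H43
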